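import Mathlib

set_option autoImplicit false

/-!
# The Nordhaus–Gaddum inequality fails for independent monophonic position colourings

A bipartite graph on 13 vertices for which the sum of the two parameters is at least `13 + 2`.
-/

namespace Pool.Agent.Results.MP_691331_co.MonophonicCounterexample

open SimpleGraph

/-- `X` is in monophonic position in `G`: for all distinct `u, v ∈ X` and every induced
`u,v`-path `P` of `G`, the only vertices of `X` on `P` are `u` and `v`.  An induced path with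
`m + 1` vertices is given by an embedding (as an induced subgraph) `φ` of the path graph on
`{0, …, m}`; its ends are `φ 0` and `φ m`. -/
def MonophonicPosition {V : Type} (G : SimpleGraph V) (X : Set V) : Prop :=
  ∀ u ∈ X, ∀ v ∈ X, u ≠ v → ∀ (m : ℕ) (φ : pathGraph (m + 1) ↪g G),
    φ 0 = u → φ (Fin.last m) = v → ∀ i, φ i ∈ X → φ i = u ∨ φ i = v

/-- `X` is an independent mp set: independent and in monophonic position. -/
def IsIndepMpSet {V : Type} (G : SimpleGraph V) (X : Set V) : Prop :=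
  (∀ u ∈ X, ∀ v ∈ X, ¬ G.Adj u v) ∧ MonophonicPosition G X

/-- The least number of colours in a colouring of the vertices all of whose colour classes are
independent mp sets. -/
noncomputable def chiMp {V : Type} (G : SimpleGraph V) : ℕ :=
  sInf {k : ℕ | ∃ c : V → Fin k, ∀ a, IsIndepMpSet G {v | c v = a}}

/-- In a finite graph such a colouring exists. -/
lemma exists_colouring {V : Type} [Finite V] (G : SimpleGraph V) :
    ∃ k : ℕ, ∃ c : V → Fin k, ∀ a, IsIndepMpSet G {v | c v = a} := by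
  obtain ⟨k, ⟨e⟩⟩ := Finite.exists_equiv_fin V
  refine ⟨k, e, fun a => ⟨?_, ?_⟩⟩
  · rintro u hu v hv h
    have : u = v := e.injective (hu.trans hv.symm)
    exact h.ne this
  · rintro u hu v hv huv
    exact absurd (e.injective (hu.trans hv.symm)) huv

/-! ### Lists as induced paths -/

section lists

variable {V : Type} {G : SimpleGraph V}

/-- The list `l` runs through an induced path. -/
def GoodList (G : SimpleGraph V) (l : List V) : Prop :=
  ∀ i j : Fin l.length, (l.get i = l.get j → i = j) ∧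
    (G.Adj (l.get i) (l.get j) ↔ (i : ℕ) + 1 = j ∨ (j : ℕ) + 1 = i)

lemma good_ordered {l : List V} (hl : GoodList G l) {X : Set V} (hX : MonophonicPosition G X)
    (a b e : Fin l.length) (hab : a < b) (hbe : b < e) (ha : l.get a ∈ X) (hb : l.get b ∈ X)
    (he : l.get e ∈ X) : False := by
  have hab' : (a : ℕ) < b := hab
  have hbe' : (b : ℕ) < e := hbe
  have hel := e.2
  let φ : pathGraph ((e : ℕ) - a + 1) ↪g G :=
    { toFun := fun i => l.get ⟨a + i, by have := i.2; omega⟩
      inj' := by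
        intro i j hij
        have h := (hl _ _).1 hij
        simp only [Fin.mk.injEq] at h
        exact Fin.ext (by omega)
      map_rel_iff' := by
        intro i j
        refine ((hl ⟨a + i, by have := i.2; omega⟩ ⟨a + j, by have := j.2; omega⟩).2).trans ?_
        rw [pathGraph_adj]
        show ((a : ℕ) + i + 1 = a + j ∨ (a : ℕ) + j + 1 = a + i) ↔ _
        omega }
  have h0 : φ 0 = l.get a := by
    show l.get ⟨a + ((0 : Fin ((e : ℕ) - a + 1)) : ℕ), _⟩ = _
    congr 1
  have h1 : φ (Fin.last _) = l.get e := by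
    show l.get ⟨a + ((Fin.last ((e : ℕ) - a)) : ℕ), _⟩ = _
    congr 1
    exact Fin.ext (by simp only [Fin.val_last]; omega)
  have h2 : φ ⟨(b : ℕ) - a, by omega⟩ = l.get b := by
    show l.get ⟨a + ((b : ℕ) - a), _⟩ = _
    congr 1
    exact Fin.ext (by simp only; omega)
  have hne : l.get a ≠ l.get e := fun h => by
    have := (hl _ _).1 h
    rw [this] at hab
    exact absurd (hab.trans hbe) (lt_irrefl _)
  have := hX _ ha _ he hne _ φ h0 h1 ⟨(b : ℕ) - a, by omega⟩ (by rw [h2]; exact hb)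
  rw [h2] at this
  rcases this with h | h
  · exact hab.ne ((hl _ _).1 h).symm
  · exact hbe.ne ((hl _ _).1 h)

lemma good_three {l : List V} (hl : GoodList G l) {X : Set V} (hX : MonophonicPosition G X)
    {x y z : V} (hx : x ∈ X) (hy : y ∈ X) (hz : z ∈ X) (hxy : x ≠ y) (hxz : x ≠ z) (hyz : y ≠ z)
    (hxl : x ∈ l) (hyl : y ∈ l) (hzl : z ∈ l) : False := by
  obtain ⟨a, rfl⟩ := List.mem_iff_get.mp hxl
  obtain ⟨b, rfl⟩ := List.mem_iff_get.mp hyl
  obtain ⟨e, rfl⟩ := List.mem_iff_get.mp hzl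
  have hab : a ≠ b := fun h => hxy (by rw [h])
  have hae : a ≠ e := fun h => hxz (by rw [h])
  have hbe : b ≠ e := fun h => hyz (by rw [h])
  rcases lt_or_gt_of_ne hab with h1 | h1 <;> rcases lt_or_gt_of_ne hae with h2 | h2 <;>
    rcases lt_or_gt_of_ne hbe with h3 | h3
  · exact good_ordered hl hX a b e h1 h3 hx hy hz
  · exact good_ordered hl hX a e b h2 h3 hx hz hy
  · exact absurd (h1.trans (h3.trans h2)) (lt_irrefl _)
  · exact good_ordered hl hX e a b h2 h1 hz hx hy
  · exact good_ordered hl hX b a e h1 h2 hy hx hz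
  · exact absurd (h1.trans (h2.trans h3)) (lt_irrefl _)
  · exact good_ordered hl hX b e a h3 h2 hy hz hx
  · exact good_ordered hl hX e b a h3 h1 hz hy hx

end lists

/-! ### The graph -/

/-- The edges of the graph. -/
def edges : List (Fin 13 × Fin 13) :=
  [(0, 6), (0, 10), (0, 11), (0, 12), (1, 5), (1, 9), (1, 10), (1, 11), (1, 12), (2, 6), (2, 7),
   (2, 8), (2, 9), (2, 12), (3, 5), (3, 8), (3, 9), (3, 10), (4, 5), (4, 7), (4, 8), (4, 10),
   (4, 11)]

/-- The bipartite graph with parts `{0, …, 4}` and `{5, …, 12}`. -/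
def Gr : SimpleGraph (Fin 13) where
  Adj u v := (u, v) ∈ edges ∨ (v, u) ∈ edges
  symm := ⟨fun _ _ h => Or.symm h⟩
  loopless := ⟨by decide⟩

instance : DecidableRel Gr.Adj := fun u v =>
  inferInstanceAs (Decidable ((u, v) ∈ edges ∨ (v, u) ∈ edges))

/-- Induced paths that cover all independent triples. -/
def paths : List (List (Fin 13)) :=
  [[6, 0, 12, 1, 9, 3, 8, 4, 7], [0, 11, 1, 5, 3, 8, 2, 7], [11, 4, 10, 3, 9, 2, 12],
   [9, 2, 6, 0, 10, 4, 5], [6, 2, 8, 3, 10, 1, 11], [5, 3, 10, 0, 12, 2, 7],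
   [6, 2, 9, 3, 5, 4, 11], [6, 0, 12, 1, 5, 4, 8], [11, 0, 10, 3, 9, 2, 7],
   [1, 10, 4, 7, 2, 6], [5, 3, 9, 2, 12, 0, 11], [7, 2, 6, 0, 11, 1, 5, 3],
   [12, 0, 11, 4, 8, 3, 9], [3, 10, 1, 12, 2, 6], [8, 3, 10, 1, 12], [10, 4, 8, 2, 9],
   [11, 0, 10, 3, 5], [5, 4, 8, 2, 9], [12, 1, 11, 4, 7], [7, 4, 5, 3, 9],
   [5, 1, 10, 0, 6, 2, 8], [11, 1, 10, 3, 8, 2, 7], [11, 1, 12, 2, 6]]

lemma paths_good : ∀ l ∈ paths, GoodList Gr l := by
  unfold GoodList
  decide +kernel

lemma paths_cover : ∀ x y z : Fin 13, x ≠ y → x ≠ z → y ≠ z → ¬ Gr.Adj x y → ¬ Gr.Adj x z →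
    ¬ Gr.Adj y z → ∃ l ∈ paths, x ∈ l ∧ y ∈ l ∧ z ∈ l := by
  decide +kernel

lemma class_small {X : Set (Fin 13)} (hX : IsIndepMpSet Gr X) {x y z : Fin 13} (hx : x ∈ X)
    (hy : y ∈ X) (hz : z ∈ X) (hxy : x ≠ y) (hxz : x ≠ z) (hyz : y ≠ z) : False := by
  obtain ⟨l, hl, h1, h2, h3⟩ := paths_cover x y z hxy hxz hyz (hX.1 x hx y hy) (hX.1 x hx z hz)
    (hX.1 y hy z hz)
  exact good_three (paths_good l hl) hX.2 hx hy hz hxy hxz hyz h1 h2 h3

lemma seven_le : 7 ≤ chiMp Gr := by
  refine le_csInf (exists_colouring Gr) ?_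
  rintro k ⟨c, hc⟩
  by_contra hlt
  push Not at hlt
  have hcard : Fintype.card (Fin k) * 2 < Fintype.card (Fin 13) := by
    simp only [Fintype.card_fin]; omega
  obtain ⟨a, ha⟩ := Fintype.exists_lt_card_fiber_of_mul_lt_card c hcard
  obtain ⟨x, y, z, hx, hy, hz, hxy, hxz, hyz⟩ := Finset.two_lt_card_iff.mp ha
  simp only [Finset.mem_filter, Finset.mem_univ, true_and] at hx hy hz
  exact class_small (hc a) hx hy hz hxy hxz hyz

lemma eight_le : 8 ≤ chiMp Grᶜ := by
  refine le_csInf (exists_colouring Grᶜ) ?_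
  rintro k ⟨c, hc⟩
  have hind : ∀ i j : Fin 8, i ≠ j →
      ¬ Gr.Adj (⟨(i : ℕ) + 5, by omega⟩ : Fin 13) (⟨(j : ℕ) + 5, by omega⟩ : Fin 13) := by
    decide +kernel
  have hinj : Function.Injective (fun i : Fin 8 => c (⟨(i : ℕ) + 5, by omega⟩ : Fin 13)) := by
    intro i j hij
    by_contra hne
    refine (hc (c ⟨(j : ℕ) + 5, by omega⟩)).1 ⟨(i : ℕ) + 5, by omega⟩ hij
      ⟨(j : ℕ) + 5, by omega⟩ rfl ?_
    rw [compl_adj]
    refine ⟨?_, hind i j hne⟩
    intro h
    simp only [Fin.mk.injEq] at h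
    exact hne (Fin.ext (by omega))
  have := Fintype.card_le_of_injective _ hinj
  simpa using this

/-- **Theorem.** There is a finite simple graph `G` with
`χ_{mp_i}(G) + χ_{mp_i}(Gᶜ) ≥ |V(G)| + 2`. -/
theorem result : ∃ (V : Type) (_ : Fintype V) (G : SimpleGraph V),
    Fintype.card V + 2 ≤ chiMp G + chiMp Gᶜ := by
  refine ⟨Fin 13, inferInstance, Gr, ?_⟩
  have h1 := seven_le
  have h2 := eight_le
  simp only [Fintype.card_fin]
  omega

end Pool.Agent.Results.MP_691331_co.MonophonicCounterexample
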